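import Pool.Agent.U308.TL.Corr
import Pool.Agent.U847.LN

set_option autoImplicit false

/-! Products of `k` consecutive values of the Liouville function, for lengths `k` near very smooth numbers. -/

namespace Pool.Agent.U308.VL
open Finset
open Pool.Agent.H373R2.T7
open Pool.Agent.Y885 (laR fine_lam)
open Pool.Agent.U847.LN (lr lr_pm wt wt_le sum_Ioc_sub)
open Pool.Agent.TH893.CL (Pk twist_le l_abs)

/-- The length `k` is good for the progression `a n + d`. -/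
def Half (a d B N : ℕ) (η : ℝ) {L : ℕ} (ξ : Fin L → ℕ → ℂ) (k : ℕ) : Prop :=
  ∀ l, ∀ Y X : ℕ, Y ≤ X → X ≤ B * N → ‖∑ n ∈ Ioc Y X, ξ l n * (Pk (lr a d) k n : ℂ)‖ ≤ ((X : ℝ) - Y) / 2 + η

/-- The correlations of order two, for the weights which belong to `ξ`. -/
lemma half_of_corr {a d B N : ℕ} (ha : 1 ≤ a) {ε : ℝ} {L : ℕ} (ξ : Fin L → ℕ → ℂ) (hξ : ∀ l n, ‖ξ l n‖ ≤ 1) (k : ℕ)
    (h : ∀ l, ∀ j : Fin 4, ∀ x : ℕ, x ≤ B * N →
      ‖∑ n ∈ Icc 1 x, ((wt a d (ξ l) j n : ℝ) : ℂ) * exI (fun n => ((laR n : ℝ) : ℂ)) (((a * n : ℕ) : ℤ) + ((a * k + d : ℕ) : ℤ))‖ ≤ ε) :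
    Half a d B N (4 * ε + 1) ξ k := by
  intro l Y X hYX hX
  have hcor : ∀ j : Fin 4, |∑ n ∈ Ioc Y X, wt a d (ξ l) j n * lr a d (n + k)| ≤ 2 * ε := by
    intro j
    have hZ : ∀ Z : ℕ, Z ≤ B * N → ‖∑ n ∈ Icc 1 Z, ((wt a d (ξ l) j n * lr a d (n + k) : ℝ) : ℂ)‖ ≤ ε := by
      intro Z hZ
      refine le_trans (le_of_eq ?_) (h l j Z hZ)
      congr 1
      apply sum_congr rfl
      intro n hn
      rw [mem_Icc] at hn
      have e1 : ((a * n : ℕ) : ℤ) + ((a * k + d : ℕ) : ℤ) = ((a * (n + k) + d : ℕ) : ℤ) := by push_cast; ring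
      have e2 : 1 ≤ a * (n + k) + d := by nlinarith
      rw [e1]
      unfold exI
      rw [if_pos (by exact_mod_cast e2), Int.toNat_natCast]
      unfold lr laR
      push_cast
      ring
    have e2 := sum_Ioc_sub (fun n => ((wt a d (ξ l) j n * lr a d (n + k) : ℝ) : ℂ)) hYX
    have e3 : ‖∑ n ∈ Ioc Y X, ((wt a d (ξ l) j n * lr a d (n + k) : ℝ) : ℂ)‖ ≤ 2 * ε := by
      rw [e2]
      refine (norm_sub_le _ _).trans ?_
      have := hZ X hX
      have := hZ Y (hYX.trans hX)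
      linarith
    rw [← Complex.ofReal_sum, Complex.norm_real, Real.norm_eq_abs] at e3
    exact e3
  have h4 := twist_le (lr_pm a d) k (hξ l) hYX (M := 2 * ε)
    (by simpa [wt] using hcor 0) (by simpa [wt] using hcor 1) (by simpa [wt] using hcor 2) (by simpa [wt] using hcor 3)
  refine h4.trans (le_of_eq ?_)
  ring

open Classical in
/-- Half of the trivial bound for all the lengths near almost all the integers composed of the primes from a set. -/
theorem sm_half2 (a : ℕ) (ha : 1 ≤ a) (κ : ℤ) (hκ : κ ≠ 0) (Kp B A T U : ℕ) (δ : ℝ) (hδ : 0 < δ) :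
    ∃ N₀ : ℕ, ∀ N, N₀ ≤ N → ∀ y : ℕ, (y : ℝ) ≤ Real.log N ^ Kp → ∀ (c : ℤ) (d L : ℕ) (ξ : Fin L → ℕ → ℂ),
      |c| ≤ B * N → d ≤ B * N → (L : ℝ) ≤ Real.log N ^ T → (∀ l n, ‖ξ l n‖ ≤ 1) →
      (∀ P : Finset ℕ, (∀ p ∈ P, p.Prime ∧ p ≤ y) → (y : ℝ) ^ (1 / 2 + δ) ≤ P.card → Real.log N ^ (1 + δ) ≤ P.card →
        ((((Icc 1 N).filter fun v : ℕ => v.primeFactors ⊆ P).filter fun v : ℕ => ∃ k : ℕ,
          |(((k : ℤ) - (c + κ * v) : ℤ) : ℝ)| ≤ Real.log N ^ A ∧ ¬ Half a d B N (N / Real.log N ^ U) ξ k).card : ℝ) ≤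
          (((Icc 1 N).filter fun v : ℕ => v.primeFactors ⊆ P).card : ℝ) / Real.log N ^ U) ∧
      (Real.log N ^ (1 + δ) ≤ y →
        ((((Icc 1 N).filter fun v : ℕ => ∀ p ∈ v.primeFactors, p ≤ y).filter fun v : ℕ => ∃ k : ℕ,
          |(((k : ℤ) - (c + κ * v) : ℤ) : ℝ)| ≤ Real.log N ^ A ∧ ¬ Half a d B N (N / Real.log N ^ U) ξ k).card : ℝ) ≤
          (((Icc 1 N).filter fun v : ℕ => ∀ p ∈ v.primeFactors, p ≤ y).card : ℝ) / Real.log N ^ U) := by
  have hκ' : (a : ℤ) * κ ≠ 0 := mul_ne_zero (by exact_mod_cast (by omega : a ≠ 0)) hκ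
  obtain ⟨B', hB'⟩ : ∃ B', B' = a * B + B := ⟨_, rfl⟩
  obtain ⟨U', hU'⟩ : ∃ U', U' = U + 4 := ⟨_, rfl⟩
  obtain ⟨N₀, h0⟩ := Pool.Agent.U308.TL.both2 δ hδ Kp U' _ (Pool.Agent.U308.TL.sm_corr2 (a * κ) hκ' Kp B' (A + 1) (T + 2) U' laR fine_lam)
  obtain ⟨N₁, h1⟩ := ev_L' ((a + 8 : ℕ) : ℝ)
  obtain ⟨N₂, h2⟩ : ∃ N₂ : ℕ, ∀ N : ℕ, N₂ ≤ N → 2 * Real.log N ^ U ≤ N := by
    have h3 := (Real.isLittleO_pow_log_id_atTop (n := U)).bound (by norm_num : (0 : ℝ) < 1 / 2)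
    obtain ⟨x₀, hx₀⟩ := Filter.eventually_atTop.1 h3
    refine ⟨⌈x₀⌉₊ + 1, fun N hN => ?_⟩
    have hN1 : x₀ ≤ (N : ℝ) := (Nat.le_ceil x₀).trans (by exact_mod_cast (by omega : ⌈x₀⌉₊ ≤ N))
    have h4 := hx₀ N hN1
    have hN0 : (0 : ℝ) ≤ N := Nat.cast_nonneg N
    have hlog : 0 ≤ Real.log N := Real.log_nonneg (by exact_mod_cast (by omega : 1 ≤ N))
    simp only [id] at h4
    rw [Real.norm_of_nonneg (by positivity), Real.norm_of_nonneg hN0] at h4
    linarith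
  refine ⟨N₀ + N₁ + N₂, fun N hN y hy c d L ξ hc hd hL hξ => ?_⟩
  have hL1 := h1 N (by omega)
  have hL8 : (8 : ℝ) ≤ Real.log N := le_trans (by exact_mod_cast (by omega : 8 ≤ a + 8)) hL1
  have hLa : (a : ℝ) ≤ Real.log N := le_trans (by exact_mod_cast (by omega : a ≤ a + 8)) hL1
  have hL0 : (0 : ℝ) < Real.log N := by linarith
  have hN0 : (0 : ℝ) ≤ N := Nat.cast_nonneg N
  -- the error
  have herr : 4 * ((N : ℝ) / Real.log N ^ U') + 1 ≤ N / Real.log N ^ U := by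
    have e1 := h2 N (by omega)
    have e2 : (1 : ℝ) ≤ N / Real.log N ^ U / 2 := by
      rw [le_div_iff₀ (by norm_num), le_div_iff₀ (by positivity)]
      linarith
    have e3 : 4 * ((N : ℝ) / Real.log N ^ U') ≤ N / Real.log N ^ U / 2 := by
      rw [hU', pow_add, ← div_div]
      have e4 : 0 ≤ (N : ℝ) / Real.log N ^ U := by positivity
      have e5 : (8 : ℝ) ≤ Real.log N ^ 4 := by
        calc (8 : ℝ) ≤ Real.log N ^ 1 := by rw [pow_one]; exact hL8
          _ ≤ Real.log N ^ 4 := pow_le_pow_right₀ (by linarith) (by norm_num)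
      have e6 : (N : ℝ) / Real.log N ^ U / Real.log N ^ 4 ≤ N / Real.log N ^ U / 8 :=
        div_le_div_of_nonneg_left e4 (by norm_num) e5
      linarith
    linarith
  have hc' : |(a : ℤ) * c + d| ≤ B' * N := by
    have e1 : |(a : ℤ) * c + d| ≤ |(a : ℤ) * c| + |(d : ℤ)| := abs_add_le _ _
    rw [abs_mul, abs_of_nonneg (Int.natCast_nonneg a), abs_of_nonneg (Int.natCast_nonneg d)] at e1
    have e2 : (a : ℤ) * |c| ≤ a * (B * (N : ℤ)) := mul_le_mul_of_nonneg_left hc (Int.natCast_nonneg a)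
    have e3 : (d : ℤ) ≤ B * (N : ℤ) := by exact_mod_cast hd
    rw [hB']
    push_cast
    linarith
  have hL' : ((L * 4 : ℕ) : ℝ) ≤ Real.log N ^ (T + 2) := by
    push_cast
    rw [pow_add]
    have : (4 : ℝ) ≤ Real.log N ^ 2 := by nlinarith
    exact mul_le_mul hL this (by norm_num) (by positivity)
  have key := h0 N (by omega) y hy (fun v : ℕ => ∃ k : ℕ,
          |(((k : ℤ) - (c + κ * v) : ℤ) : ℝ)| ≤ Real.log N ^ A ∧ ¬ Half a d B N (N / Real.log N ^ U) ξ k)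
      (fun v => inferInstance)
    ⟨a * c + d, L * 4, fun _ => a,
      fun r n => ((wt a d (ξ (finProdFinEquiv.symm r).1) (finProdFinEquiv.symm r).2 n : ℝ) : ℂ), hc', hL', fun _ => ha,
      fun r n _ _ => by
        rw [Complex.norm_real, Real.norm_eq_abs]
        exact (wt_le a d (hξ _) _ _).trans (one_le_pow₀ (by linarith)),
      fun v hv => ?_⟩
  · have hU1 : ∀ s : ℝ, 0 ≤ s → s / Real.log N ^ U' ≤ s / Real.log N ^ U := by
      intro s hs
      apply div_le_div_of_nonneg_left hs (by positivity)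
      exact pow_le_pow_right₀ (by linarith) (by omega)
    refine ⟨fun P hP h5 h6 => (key.1 P hP h5 h6).trans (hU1 _ (Nat.cast_nonneg _)), fun h5 => (key.2 h5).trans (hU1 _ (Nat.cast_nonneg _))⟩
  · obtain ⟨k, hk, hbad⟩ := hv
    refine ⟨a * ((k : ℤ) - (c + κ * v)), ?_, ?_⟩
    · push_cast
      push_cast at hk
      rw [abs_mul, abs_of_nonneg (Nat.cast_nonneg a), pow_succ, mul_comm]
      exact mul_le_mul hk hLa (Nat.cast_nonneg a) (by positivity)
    · by_contra hcon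
      push Not at hcon
      apply hbad
      have h7 := half_of_corr (N := N) (B := B) (ε := (N : ℝ) / Real.log N ^ U') ha ξ hξ k (fun l j x hx => by
        have h8 := hcon (finProdFinEquiv (l, j)) x (by
            rw [hB']
            have : a * x ≤ a * (B * N) := Nat.mul_le_mul_left a hx
            nlinarith [Nat.zero_le (B * N)])
        simp only [Equiv.symm_apply_apply] at h8
        refine le_trans (le_of_eq ?_) h8
        congr 1
        apply sum_congr rfl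
        intro n _
        congr 2
        push_cast
        ring)
      intro l Y X hYX hX
      exact (h7 l Y X hYX hX).trans (by linarith)

end Pool.Agent.U308.VL
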